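import Mathlib

set_option autoImplicit false

namespace Pool.Agent.Results.MP_69f1cd_co.StrictCounterexample

/-- The arcs of the preference graph of the two-player game with strategy sets `S`, `T` and payoff
functions `u₁` (player 1, who chooses the element of `S`) and `u₂` (player 2, who chooses the
element of `T`). The vertices are the profiles `S × T`; an arc joins profiles that differ in the
strategy of exactly one player and points to the profile this player strictly prefers. -/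
def Arc {S T : Type} (u₁ u₂ : S → T → ℝ) (p q : S × T) : Prop :=
  (p.1 ≠ q.1 ∧ p.2 = q.2 ∧ u₁ p.1 p.2 < u₁ q.1 q.2) ∨
    (p.1 = q.1 ∧ p.2 ≠ q.2 ∧ u₂ p.1 p.2 < u₂ q.1 q.2)

/-- The game is strict: no player is ever indifferent between two profiles that differ in this
player's own strategy only. -/
def IsStrict {S T : Type} (u₁ u₂ : S → T → ℝ) : Prop :=
  (∀ s s' : S, ∀ t : T, s ≠ s' → u₁ s t ≠ u₁ s' t) ∧
    (∀ s : S, ∀ t t' : T, t ≠ t' → u₂ s t ≠ u₂ s t')

/-- The preference graph is strongly connected: there is a directed path from any profile to any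
profile. -/
def StronglyConnected {S T : Type} (u₁ u₂ : S → T → ℝ) : Prop :=
  ∀ p q : S × T, Relation.ReflTransGen (Arc u₁ u₂) p q

/-- The preference graph has a 4-cycle: a directed cycle through four distinct profiles. -/
def HasFourCycle {S T : Type} (u₁ u₂ : S → T → ℝ) : Prop :=
  ∃ a b c d : S × T, [a, b, c, d].Nodup ∧
    Arc u₁ u₂ a b ∧ Arc u₁ u₂ b c ∧ Arc u₁ u₂ c d ∧ Arc u₁ u₂ d a

/-- The payoffs of player 1 in the example. -/
def w₁ : Fin 4 → Fin 5 → ℕ :=
  ![![2, 1, 3, 0, 3], ![1, 0, 0, 3, 2], ![0, 3, 2, 2, 1], ![3, 2, 1, 1, 0]]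

/-- The payoffs of player 2 in the example. -/
def w₂ : Fin 4 → Fin 5 → ℕ :=
  ![![4, 0, 1, 2, 3], ![0, 1, 2, 3, 4], ![1, 2, 3, 4, 0], ![3, 4, 0, 1, 2]]

/-- The arcs of the example, with natural number payoffs. -/
def NArc (p q : Fin 4 × Fin 5) : Prop :=
  (p.1 ≠ q.1 ∧ p.2 = q.2 ∧ w₁ p.1 p.2 < w₁ q.1 q.2) ∨
    (p.1 = q.1 ∧ p.2 ≠ q.2 ∧ w₂ p.1 p.2 < w₂ q.1 q.2)

instance : DecidableRel NArc := fun p q => by unfold NArc; infer_instance

/-- A closed walk through all the profiles of the example. -/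
def walk : Fin 25 → Fin 4 × Fin 5 :=
  ![(2, 3), (1, 3), (1, 4), (0, 4), (0, 0), (3, 0), (3, 1), (2, 1), (2, 2), (0, 2), (0, 3),
    (3, 3), (3, 4), (2, 4), (2, 0), (1, 0), (1, 2), (3, 2), (3, 4), (2, 4), (2, 0), (1, 0),
    (1, 1), (0, 1), (2, 1)]

/-- The walk, repeated periodically. -/
def pwalk (n : ℕ) : Fin 4 × Fin 5 := walk (Fin.ofNat 25 n)

theorem walk_step : ∀ i : Fin 25, NArc (walk i) (walk (i + 1)) := by decide

theorem walk_surj : ∀ p : Fin 4 × Fin 5, ∃ i : Fin 25, walk i = p := by decide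

theorem pwalk_step (n : ℕ) : NArc (pwalk n) (pwalk (n + 1)) := by
  have h := walk_step (Fin.ofNat 25 n)
  have e : (Fin.ofNat 25 n) + 1 = Fin.ofNat 25 (n + 1) := by
    ext
    simp [Fin.ofNat, Fin.val_add]
  rw [e] at h
  exact h

theorem walk_reach (n m : ℕ) : Relation.ReflTransGen NArc (pwalk n) (pwalk (n + m)) := by
  induction m with
  | zero => exact Relation.ReflTransGen.refl
  | succ m ih => exact ih.tail (pwalk_step (n + m))

theorem reach (p q : Fin 4 × Fin 5) : Relation.ReflTransGen NArc p q := by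
  obtain ⟨i, rfl⟩ := walk_surj p
  obtain ⟨j, rfl⟩ := walk_surj q
  have hi : walk i = pwalk i.val := by
    unfold pwalk
    congr 1
    ext
    have := i.isLt
    simp only [Fin.ofNat]
    omega
  have hj : walk j = pwalk (i.val + (j.val + 25 - i.val)) := by
    unfold pwalk
    congr 1
    ext
    have := i.isLt
    have := j.isLt
    simp only [Fin.ofNat]
    omega
  rw [hi, hj]
  exact walk_reach _ _

theorem no_four : ∀ (a b : Fin 4) (h k : Fin 5),
    ¬ (w₁ a h < w₁ b h ∧ w₂ b h < w₂ b k ∧ w₁ b k < w₁ a k ∧ w₂ a k < w₂ a h) := by decide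

theorem arc_iff (p q : Fin 4 × Fin 5) :
    Arc (fun s t => (w₁ s t : ℝ)) (fun s t => (w₂ s t : ℝ)) p q ↔ NArc p q := by
  simp [Arc, NArc]

/-- There is a strict two-player game, with 4 and 5 strategies, whose preference graph is strongly
connected and contains no directed 4-cycle. -/
theorem result : ∃ u₁ u₂ : Fin 4 → Fin 5 → ℝ,
    IsStrict u₁ u₂ ∧ StronglyConnected u₁ u₂ ∧ ¬ HasFourCycle u₁ u₂ := by
  refine ⟨fun s t => (w₁ s t : ℝ), fun s t => (w₂ s t : ℝ), ⟨?_, ?_⟩, ?_, ?_⟩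
  · have h : ∀ s s' : Fin 4, ∀ t : Fin 5, s ≠ s' → w₁ s t ≠ w₁ s' t := by decide
    intro s s' t hs
    have := h s s' t hs
    simpa using this
  · have h : ∀ s : Fin 4, ∀ t t' : Fin 5, t ≠ t' → w₂ s t ≠ w₂ s t' := by decide
    intro s t t' ht
    have := h s t t' ht
    simpa using this
  · intro p q
    exact Relation.ReflTransGen.mono (fun a b hab => (arc_iff a b).2 hab) _ _ (reach p q)
  · rintro ⟨a, b, c, d, hnd, hab, hbc, hcd, hda⟩
    rw [arc_iff] at hab hbc hcd hda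
    obtain ⟨a1, a2⟩ := a
    obtain ⟨b1, b2⟩ := b
    obtain ⟨c1, c2⟩ := c
    obtain ⟨d1, d2⟩ := d
    simp only [NArc] at hab hbc hcd hda
    rcases hab with ⟨h1, h2, h3⟩ | ⟨h1, h2, h3⟩ <;> rcases hbc with ⟨h4, h5, h6⟩ | ⟨h4, h5, h6⟩ <;>
      rcases hcd with ⟨h7, h8, h9⟩ | ⟨h7, h8, h9⟩ <;>
      rcases hda with ⟨h10, h11, h12⟩ | ⟨h10, h11, h12⟩ <;> subst_vars <;>
      first
        | omega
        | exact absurd rfl ‹_›
        | exact absurd ⟨h3, h6, h9, h12⟩ (no_four _ _ _ _)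
        | exact absurd ⟨h12, h3, h6, h9⟩ (no_four _ _ _ _)

end Pool.Agent.Results.MP_69f1cd_co.StrictCounterexample
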